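import Pool.Agent.Helper46.KG.Defs

/-!
# MP_0f21ab_al, packet KG-G1
-/

set_option autoImplicit false

namespace Pool.Agent.Helper11.KG

universe u

open Helper46.KG

open scoped commutatorElement

/-- an element whose order is a power of `p` lies in the normal subgroup `Q` of index prime to `p` -/
theorem mem_of_orderOf {G : Type u} [Group G] [Finite G] (Q : Subgroup G) [Q.Normal] (g : G) (s : ℕ) (hg : (g : G) ^ s = 1)
    (hs : s.Coprime Q.index) : g ∈ Q := by
  have h1 : ((g : G ⧸ Q)) ^ s = 1 := by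
    rw [← QuotientGroup.mk_pow, hg]; rfl
  have h2 : orderOf (g : G ⧸ Q) ∣ s := orderOf_dvd_of_pow_eq_one h1
  have h3 : orderOf (g : G ⧸ Q) ∣ Q.index := orderOf_dvd_natCard _
  have h4 : orderOf (g : G ⧸ Q) = 1 := Nat.eq_one_of_dvd_coprimes hs h2 h3
  rw [orderOf_eq_one_iff] at h4
  exact (QuotientGroup.eq_one_iff g).1 h4

/-- the `p'`-part of an element -/
theorem exists_prime_part {G : Type u} [Group G] [Finite G] (p : ℕ) (Q : Subgroup G) [Q.Normal]
    (hp : p.Prime) (hidx : ¬ p ∣ Q.index) (g : G) :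
    ∃ N : ℕ, (orderOf (g ^ N)).Coprime p ∧ ((g ^ N : G) : G ⧸ Q) = (g : G ⧸ Q) := by
  obtain ⟨e, s, hs, hes⟩ := Nat.exists_eq_pow_mul_and_not_dvd (orderOf_pos g).ne' p hp.ne_one
  have hco : (p ^ e).Coprime s := Nat.Coprime.pow_left e ((Nat.Prime.coprime_iff_not_dvd hp).2 hs)
  obtain ⟨N, hN1, hN2⟩ := Nat.chineseRemainder hco 0 1
  refine ⟨N, ?_, ?_⟩
  · have h1 : (g ^ N) ^ s = 1 := by
      rw [← pow_mul]
      obtain ⟨m, hm⟩ := (Nat.modEq_zero_iff_dvd.1 hN1)
      rw [hm, show p ^ e * m * s = (p ^ e * s) * m by ring, pow_mul, ← hes, pow_orderOf_eq_one,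
        one_pow]
    have h2 : orderOf (g ^ N) ∣ s := orderOf_dvd_of_pow_eq_one h1
    exact Nat.Coprime.coprime_dvd_left h2 ((Nat.Prime.coprime_iff_not_dvd hp).2 hs).symm
  · rw [QuotientGroup.mk_pow]
    have h1 : orderOf (g : G ⧸ Q) ∣ s := by
      have h2 : orderOf (g : G ⧸ Q) ∣ p ^ e * s := by
        rw [← hes]
        refine orderOf_dvd_of_pow_eq_one ?_
        rw [← QuotientGroup.mk_pow, pow_orderOf_eq_one]; rfl
      have h3 : orderOf (g : G ⧸ Q) ∣ Q.index := orderOf_dvd_natCard _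
      have h4 : (orderOf (g : G ⧸ Q)).Coprime (p ^ e) := by
        refine Nat.Coprime.pow_right e ?_
        refine (Nat.Coprime.symm ((Nat.Prime.coprime_iff_not_dvd hp).2 ?_))
        intro h
        exact hidx (h.trans h3)
      exact h4.dvd_of_dvd_mul_left h2
    have h2 : (g : G ⧸ Q) ^ N = (g : G ⧸ Q) ^ 1 :=
      pow_eq_pow_iff_modEq.2 (hN2.of_dvd h1)
    rw [h2, pow_one]

theorem stG1 : StG1.{u} := by
  intro G _ _ p Q Z _ hp hQ hidx hcomm hZ
  classical
  have : Fact p.Prime := ⟨hp⟩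
  -- `Q` is normal and `G/Q` is abelian
  have hQn : Q.Normal := ⟨fun n hn g => by
    have h1 : ⁅g, n⁆ ∈ Q := hcomm (Subgroup.commutator_mem_commutator (Subgroup.mem_top _)
      (Subgroup.mem_top _))
    have h2 : g * n * g⁻¹ = ⁅g, n⁆ * n := by rw [commutatorElement_def]; group
    rw [h2]; exact Q.mul_mem h1 hn⟩
  have hab : ∀ a b : G ⧸ Q, a * b = b * a := by
    intro a b
    obtain ⟨a, rfl⟩ := QuotientGroup.mk_surjective a
    obtain ⟨b, rfl⟩ := QuotientGroup.mk_surjective b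
    rw [← QuotientGroup.mk_mul, ← QuotientGroup.mk_mul, QuotientGroup.eq]
    have h1 : ⁅b⁻¹, a⁻¹⁆ ∈ Q := hcomm (Subgroup.commutator_mem_commutator (Subgroup.mem_top _)
      (Subgroup.mem_top _))
    have h2 : (a * b)⁻¹ * (b * a) = ⁅b⁻¹, a⁻¹⁆ := by rw [commutatorElement_def]; group
    rw [h2]; exact h1
  have hpi : p.Coprime Q.index := (Nat.Prime.coprime_iff_not_dvd hp).2 hidx
  have hZQ : Z ≤ Q := by
    intro z hz
    refine mem_of_orderOf Q z p ?_ hpi
    have h1 : (⟨z, hz⟩ : Z) ^ Nat.card Z = 1 := pow_card_eq_one'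
    rw [hZ] at h1
    exact congrArg Subtype.val h1
  have hcyc : IsCyclic Z := isCyclic_of_prime_card hZ
  have haut : Nat.card (MulAut Z) = p - 1 := by
    rw [IsCyclic.card_mulAut, hZ, Nat.totient_prime hp]
  -- centralizer
  set C : Subgroup G := (MulAut.conjNormal (H := Z)).ker with hC
  have hCmem : ∀ g, g ∈ C ↔ ∀ z ∈ Z, g * z = z * g := by
    intro g
    rw [hC, MonoidHom.mem_ker]
    constructor
    · intro h z hz
      have h1 := congrArg (fun f => ((f : MulAut Z) ⟨z, hz⟩ : G)) h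
      simp only [MulAut.conjNormal_apply, MulAut.one_apply] at h1
      calc g * z = g * z * g⁻¹ * g := by group
        _ = z * g := by rw [h1]
    · intro h
      ext z
      rw [MulAut.conjNormal_apply, h z.1 z.2]
      simp
  have hQC : Q ≤ C := by
    intro q hq
    rw [hC, MonoidHom.mem_ker]
    obtain ⟨k, hk⟩ := hQ ⟨q, hq⟩
    have hk' : q ^ p ^ k = 1 := congrArg Subtype.val hk
    have h1 : (MulAut.conjNormal (H := Z) q) ^ (p ^ k) = 1 := by
      rw [← map_pow, hk', map_one]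
    have h2 : orderOf (MulAut.conjNormal (H := Z) q) ∣ p ^ k := orderOf_dvd_of_pow_eq_one h1
    have h3 : orderOf (MulAut.conjNormal (H := Z) q) ∣ p - 1 := by
      rw [← haut]; exact orderOf_dvd_natCard _
    have h4 : (p ^ k).Coprime (p - 1) := by
      refine Nat.Coprime.pow_left k ?_
      have := hp.two_le
      refine (Nat.Prime.coprime_iff_not_dvd hp).2 fun h => ?_
      have := Nat.le_of_dvd (by omega) h
      omega
    exact orderOf_eq_one_iff.1 (Nat.eq_one_of_dvd_coprimes h4 h2 h3)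
  have hCidx : C.index ≤ p - 1 := by
    rw [hC, Subgroup.index_ker, ← haut]
    exact Nat.card_le_card_of_injective _ Subtype.val_injective
  -- the set B
  refine ⟨{c | ∃ h : G, h ∈ C ∧ (orderOf h).Coprime p ∧ c = ConjClasses.mk (h : G ⧸ Z)},
    ?_, ?_, ?_⟩
  · -- counting
    have h1 : Q.index = Q.relIndex C * C.index := (Subgroup.relIndex_mul_index hQC).symm
    have h2 : Q.relIndex C ≤
        ({c | ∃ h : G, h ∈ C ∧ (orderOf h).Coprime p ∧ c = ConjClasses.mk (h : G ⧸ Z)} :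
          Set (ConjClasses (G ⧸ Z))).ncard := by
      have hrep : ∀ γ : C ⧸ (Q.subgroupOf C), ∃ h : C, (orderOf (h : G)).Coprime p ∧
          (h : C ⧸ (Q.subgroupOf C)) = γ := by
        intro γ
        obtain ⟨g, rfl⟩ := QuotientGroup.mk_surjective γ
        obtain ⟨N, hN1, hN2⟩ := exists_prime_part p Q hp hidx (g : G)
        refine ⟨g ^ N, ?_, ?_⟩
        · simpa using hN1
        · rw [QuotientGroup.eq]
          rw [QuotientGroup.eq] at hN2
          rw [Subgroup.mem_subgroupOf]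
          simpa using hN2
      choose rep hrep1 hrep2 using hrep
      have hinj : Function.Injective (fun γ : C ⧸ (Q.subgroupOf C) =>
          (⟨ConjClasses.mk ((rep γ : G) : G ⧸ Z), (rep γ : G), (rep γ).2, hrep1 γ, rfl⟩ :
            {c | ∃ h : G, h ∈ C ∧ (orderOf h).Coprime p ∧
              c = ConjClasses.mk (h : G ⧸ Z)})) := by
        intro γ₁ γ₂ h
        have h3 : ConjClasses.mk ((rep γ₁ : G) : G ⧸ Z) = ConjClasses.mk ((rep γ₂ : G) : G ⧸ Z) :=
          congrArg Subtype.val h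
        rw [ConjClasses.mk_eq_mk_iff_isConj, isConj_iff] at h3
        obtain ⟨c, hc⟩ := h3
        obtain ⟨c, rfl⟩ := QuotientGroup.mk_surjective c
        have h4 : (c * (rep γ₁ : G) * c⁻¹)⁻¹ * (rep γ₂ : G) ∈ Z := QuotientGroup.eq.1 hc
        have h5 : ((rep γ₁ : G) : G ⧸ Q) = ((rep γ₂ : G) : G ⧸ Q) := by
          have h6 : ((c * (rep γ₁ : G) * c⁻¹ : G) : G ⧸ Q) = ((rep γ₂ : G) : G ⧸ Q) :=
            QuotientGroup.eq.2 (hZQ h4)
          rw [← h6, QuotientGroup.mk_mul, QuotientGroup.mk_mul, hab (c : G ⧸ Q), mul_assoc,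
            ← QuotientGroup.mk_mul, mul_inv_cancel]
          simp
        rw [← hrep2 γ₁, ← hrep2 γ₂, QuotientGroup.eq, Subgroup.mem_subgroupOf]
        rw [QuotientGroup.eq] at h5
        simpa using h5
      have := Nat.card_le_card_of_injective _ hinj
      rw [Nat.card_coe_set_eq] at this
      exact this
    calc Q.index = Q.relIndex C * C.index := h1
      _ ≤ _ * (p - 1) := Nat.mul_le_mul h2 hCidx
      _ = _ := mul_comm _ _
  · -- fibres
    rintro c ⟨h, hhC, hhp, rfl⟩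
    obtain ⟨z, hz⟩ : ∃ z : Z, z ≠ 1 := by
      have : Nontrivial Z := Finite.one_lt_card_iff_nontrivial.1 (by rw [hZ]; exact hp.one_lt)
      exact exists_ne 1
    have hzo : orderOf (z : G) = p := by
      rw [Subgroup.orderOf_coe]
      exact orderOf_eq_prime (by rw [← hZ]; exact pow_card_eq_one') hz
    have hfin : (fib Z (ConjClasses.mk (h : G ⧸ Z))).Finite := Set.toFinite _
    rw [Nat.succ_le_iff, Set.one_lt_ncard_iff hfin]
    refine ⟨ConjClasses.mk h, ConjClasses.mk (h * z), ?_, ?_, ?_⟩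
    · rfl
    · show ConjClasses.mk ((h * z : G) : G ⧸ Z) = ConjClasses.mk (h : G ⧸ Z)
      congr 1
      rw [QuotientGroup.eq]
      simp
    · intro heq
      rw [ConjClasses.mk_eq_mk_iff_isConj, isConj_iff] at heq
      obtain ⟨c, hc⟩ := heq
      have h1 : orderOf (h * (z : G)) = orderOf h := by
        rw [← hc]
        exact (MulEquiv.orderOf_eq (MulAut.conj c) h)
      have h2 : Commute h (z : G) := (hCmem h).1 hhC z z.2
      rw [h2.orderOf_mul_eq_mul_orderOf_of_coprime (by rw [hzo]; exact hhp), hzo] at h1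
      have := orderOf_pos h
      have := hp.two_le
      nlinarith
  · rintro x hx ⟨h, hhC, hhp, hxc⟩
    rw [ConjClasses.mk_eq_mk_iff_isConj, isConj_iff] at hxc
    obtain ⟨c, hc⟩ := hxc
    obtain ⟨c, rfl⟩ := QuotientGroup.mk_surjective c
    have h4 : (c * x * c⁻¹)⁻¹ * h ∈ Z := QuotientGroup.eq.1 hc
    have h5 : h ∈ Q := by
      have h6 : c * x * c⁻¹ ∈ Q := hQn.conj_mem x hx c
      have h7 := Q.mul_mem h6 (hZQ h4)
      rwa [mul_inv_cancel_left] at h7
    have h6 : h = 1 := by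
      obtain ⟨k, hk⟩ := hQ ⟨h, h5⟩
      have hk' : h ^ p ^ k = 1 := congrArg Subtype.val hk
      have h8 : orderOf h ∣ p ^ k := orderOf_dvd_of_pow_eq_one hk'
      have h9 : (orderOf h).Coprime (p ^ k) := Nat.Coprime.pow_right k hhp
      exact orderOf_eq_one_iff.1 (Nat.eq_one_of_dvd_coprimes h9 dvd_rfl h8)
    rw [h6, mul_one] at h4
    have h7 : c * x * c⁻¹ ∈ Z := by simpa using Z.inv_mem h4
    have h8 := (inferInstance : Z.Normal).conj_mem _ h7 c⁻¹
    simpa [mul_assoc] using h8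

end Pool.Agent.Helper11.KG
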