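import Pool.Agent.Helper46.KG.Defs2

/-!
# MP_0f21ab_al, packet KG-SE (the proofs follow Helper89's file for packet S)
-/

set_option autoImplicit false

namespace Pool.Agent.Helper11.KG

universe u

open Helper46.KG
open scoped commutatorElement

theorem stSE1 : StSE1.{u} := by
  intro G _ N P _ ⟨n, H, h0, hn, hnor, hs⟩
  refine ⟨n, fun i => (H i).map (QuotientGroup.mk' N), ?_, ?_, ?_, ?_⟩
  · simp only
    rw [h0, Subgroup.map_bot]
  · simp only
    rw [hn]
  · intro i
    exact (hnor i).map _ (QuotientGroup.mk'_surjective N)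
  · intro i hi
    obtain ⟨g, hg⟩ := hs i hi
    refine ⟨QuotientGroup.mk' N g, ?_⟩
    simp only
    rw [hg, Subgroup.map_sup, MonoidHom.map_zpowers]

/-- the image of the next term of the chain is cyclic -/
theorem map_next' {G : Type u} [Group G] (A : Subgroup G) [A.Normal] (g : G) :
    (A ⊔ Subgroup.zpowers g).map (QuotientGroup.mk' A) =
      Subgroup.zpowers (QuotientGroup.mk' A g) := by
  rw [Subgroup.map_sup, MonoidHom.map_zpowers, QuotientGroup.map_mk'_self, bot_sup_eq]

theorem stSE2 : StSE2.{u} := by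
  classical
  intro G _ _ N ⟨n, H, h0, hn, hnor, hs⟩ hne
  have hN : N.Normal := hn ▸ hnor n
  have hex : ∃ i, H i ⊓ N ≠ ⊥ := ⟨n, by rw [hn, inf_idem]; exact hne⟩
  obtain ⟨j, hj1, hj2, hjn⟩ : ∃ j, H j ⊓ N = ⊥ ∧ H (j + 1) ⊓ N ≠ ⊥ ∧ j < n := by
    have h1 := Nat.find_spec hex
    have h2 : Nat.find hex ≠ 0 := by
      intro h
      rw [h, h0, bot_inf_eq] at h1
      exact h1 rfl
    obtain ⟨j, hj⟩ := Nat.exists_eq_succ_of_ne_zero h2
    refine ⟨j, ?_, ?_, ?_⟩
    · by_contra h
      exact Nat.find_min hex (by omega) h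
    · rw [hj] at h1
      exact h1
    · have : Nat.find hex ≤ n := Nat.find_min' hex (by rw [hn, inf_idem]; exact hne)
      omega
  obtain ⟨g, hg⟩ := hs j hjn
  have := hnor j
  have := hnor (j + 1)
  set D : Subgroup G := H (j + 1) ⊓ N with hD
  have hDn : D.Normal := Subgroup.normal_inf_normal _ _
  -- `D` is cyclic
  have hmem : ∀ x ∈ H (j + 1), QuotientGroup.mk' (H j) x ∈
      Subgroup.zpowers (QuotientGroup.mk' (H j) g) := by
    intro x hx
    rw [← map_next', ← hg]
    exact Subgroup.mem_map_of_mem _ hx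
  let φ : D →* Subgroup.zpowers (QuotientGroup.mk' (H j) g) :=
    ((QuotientGroup.mk' (H j)).comp D.subtype).codRestrict _ (fun x => hmem x.1 x.2.1)
  have hφ : Function.Injective φ := by
    rw [injective_iff_map_eq_one]
    intro x hx
    have h1 : QuotientGroup.mk' (H j) x.1 = 1 := congrArg Subtype.val hx
    have h2 : x.1 ∈ H j := by
      rwa [QuotientGroup.mk'_apply, QuotientGroup.eq_one_iff] at h1
    have h3 : x.1 ∈ H j ⊓ N := ⟨h2, x.2.2⟩
    rw [hj1, Subgroup.mem_bot] at h3
    exact Subtype.ext h3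
  have hcyc : IsCyclic D := isCyclic_of_injective φ hφ
  have hcard : Nat.card D ≠ 1 := by
    intro h
    exact hj2 ((Subgroup.card_eq_one (H := D)).1 h)
  obtain ⟨p, hp, hpd⟩ := Nat.exists_prime_and_dvd hcard
  have : Fact p.Prime := ⟨hp⟩
  let : Fintype D := Fintype.ofFinite D
  obtain ⟨d, hd⟩ := exists_prime_orderOf_dvd_card' (G := D) p hpd
  have huniq : ∀ z : D, z ^ p = 1 → z ∈ Subgroup.zpowers d := by
    have hS : (Finset.univ.filter (fun z : D => z ∈ Subgroup.zpowers d)) =
        Finset.univ.filter (fun z : D => z ^ p = 1) := by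
      apply Finset.eq_of_subset_of_card_le
      · intro z hz
        rw [Finset.mem_filter] at hz ⊢
        refine ⟨Finset.mem_univ _, ?_⟩
        obtain ⟨k, rfl⟩ := hz.2
        simp only
        rw [← zpow_natCast, ← zpow_mul, mul_comm, zpow_mul, zpow_natCast, ← hd,
          pow_orderOf_eq_one, one_zpow]
      · have h1 : (Finset.univ.filter (fun z : D => z ^ p = 1)).card ≤ p :=
          IsCyclic.card_pow_eq_one_le hp.pos
        have h2 : (Finset.univ.filter (fun z : D => z ∈ Subgroup.zpowers d)).card = p := by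
          rw [← hd, ← Nat.card_zpowers, Nat.card_eq_fintype_card, Fintype.card_subtype]
        omega
    intro z hz
    have : z ∈ Finset.univ.filter (fun z : D => z ^ p = 1) := by simp [hz]
    rw [← hS] at this
    simpa using this
  refine ⟨(Subgroup.zpowers d).map D.subtype, ?_, ?_, ?_⟩
  · rintro x ⟨z, _, rfl⟩
    exact z.2.2
  · constructor
    rintro x ⟨z, hz, rfl⟩ y
    have hc : y * (z : G) * y⁻¹ ∈ D := hDn.conj_mem _ z.2 y
    refine ⟨⟨y * z * y⁻¹, hc⟩, ?_, rfl⟩
    apply huniq
    apply Subtype.ext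
    have hz1 : (z : G) ^ p = 1 := by
      obtain ⟨k, rfl⟩ := hz
      have : (d ^ k) ^ p = 1 := by
        rw [← zpow_natCast, ← zpow_mul, mul_comm, zpow_mul, zpow_natCast, ← hd,
          pow_orderOf_eq_one, one_zpow]
      exact congrArg Subtype.val this
    have h1 : (y * (z : G) * y⁻¹) ^ p = 1 := by
      rw [conj_pow, hz1, mul_one, mul_inv_cancel]
    exact h1
  · rw [Subgroup.card_subtype, Nat.card_zpowers, hd]
    exact hp

theorem stSE3 : StSE3.{u} := by
  intro G _ P hP ⟨n, H, h0, hn, hnor, hs⟩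
  refine ⟨n, fun i => H i ⊓ P, ?_, ?_, ?_, ?_⟩
  · simp only
    rw [h0, bot_inf_eq]
  · simp only
    rw [hn, top_inf_eq]
  · intro i
    have := hnor i
    exact Subgroup.normal_inf_normal _ _
  · intro i hi
    obtain ⟨g, hg⟩ := hs i hi
    have := hnor i
    have hle : H i ≤ H (i + 1) := by rw [hg]; exact le_sup_left
    set L : Subgroup (G ⧸ H i) := (H (i + 1) ⊓ P).map (QuotientGroup.mk' (H i)) with hL
    have hLle : L ≤ Subgroup.zpowers (QuotientGroup.mk' (H i) g) := by
      rw [← map_next', ← hg]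
      exact Subgroup.map_mono inf_le_left
    have hcyc : IsCyclic L :=
      isCyclic_of_injective (Subgroup.inclusion hLle) (Subgroup.inclusion_injective hLle)
    obtain ⟨l, hl⟩ := hcyc.exists_generator
    obtain ⟨x, hx, hxl⟩ := l.2
    refine ⟨x, ?_⟩
    simp only
    apply le_antisymm
    · intro y hy
      have hyL : QuotientGroup.mk' (H i) y ∈ L := Subgroup.mem_map_of_mem _ hy
      obtain ⟨k, hk⟩ := Subgroup.mem_zpowers_iff.1 (hl ⟨_, hyL⟩)
      have hk' : (QuotientGroup.mk' (H i) x) ^ k = QuotientGroup.mk' (H i) y := by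
        rw [hxl]
        exact congrArg Subtype.val hk
      have h1 : ((x ^ k : G) : G ⧸ H i) = (y : G ⧸ H i) := by
        rw [← map_zpow] at hk'
        exact hk'
      have h2 : (x ^ k)⁻¹ * y ∈ H i := QuotientGroup.eq.1 h1
      have h3 : (x ^ k)⁻¹ * y ∈ P := P.mul_mem (P.inv_mem (P.zpow_mem hx.2 k)) hy.2
      have h4 : y = x ^ k * ((x ^ k)⁻¹ * y) := by group
      rw [h4]
      refine Subgroup.mul_mem _ ?_ ?_
      · exact (le_sup_right : Subgroup.zpowers x ≤ _) (Subgroup.zpow_mem_zpowers x k)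
      · exact (le_sup_left : H i ⊓ P ≤ _) ⟨h2, h3⟩
    · refine sup_le (inf_le_inf_right P hle) ?_
      rw [Subgroup.zpowers_le]
      exact hx

end Pool.Agent.Helper11.KG
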