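import Pool.Agent.Helper46.KG.Defs2
import Pool.Agent.Helper11.KG.SE

/-!
# MP_0f21ab_al, packet KG-N2T (the proof of N2 follows Helper22's file for packet N)
-/

set_option autoImplicit false

namespace Pool.Agent.Helper11.KG

open Helper46.KG

universe u

/-- A finite nilpotent group of class `> c` has a Sylow subgroup of class `> c` which is a
retract: there is a surjective homomorphism onto it. -/
theorem exists_sylow_class (N : Type u) [Group N] [Finite N] (hN : Group.IsNilpotent N) (c : ℕ)
    (hna : (⊤ : Subgroup N).lowerCentralSeries c ≠ ⊥) :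
    ∃ (p : ℕ) (_ : Fact p.Prime) (P0 : Sylow p N), (P0 : Subgroup N).Normal ∧
      ((⊤ : Subgroup P0).lowerCentralSeries c ≠ ⊥) ∧ ∃ φ : N →* P0, Function.Surjective φ := by
  have hnorm : ∀ (p : ℕ) (_ : Fact p.Prime) (P : Sylow p N), (P : Subgroup N).Normal :=
    ((Group.isNilpotent_of_finite_tfae (G := N)).out 0 3).mp hN
  have hn' : ∀ {p : ℕ} [Fact p.Prime] (P : Sylow p N), (P : Subgroup N).Normal :=
    fun {p} hp P => hnorm p hp P
  have e := Sylow.directProductOfNormal (G := N) hn'
  by_contra hcon
  push Not at hcon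
  apply hna
  rw [eq_bot_iff]
  intro x hx
  have hone : e.symm x = 1 := by
    funext p P
    have : Fact (p : ℕ).Prime := ⟨Nat.prime_of_mem_primeFactors p.2⟩
    set f : N →* P := ((Pi.evalMonoidHom (fun P : Sylow (p : ℕ) N => (P : Subgroup N)) P).comp
        (Pi.evalMonoidHom (fun p : (Nat.card N).primeFactors =>
          ∀ P : Sylow (p : ℕ) N, (P : Subgroup N)) p)).comp e.symm.toMonoidHom with hf
    have hfs : Function.Surjective f := by
      intro y
      classical
      obtain ⟨h, hh⟩ : ∃ h : (∀ p : (Nat.card N).primeFactors, ∀ P : Sylow (p : ℕ) N, P),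
          h p P = y := by
        refine ⟨Function.update 1 p (Function.update 1 P y), ?_⟩
        simp
      exact ⟨e h, by simp [hf, hh]⟩
    have hbot : (⊤ : Subgroup P).lowerCentralSeries c = ⊥ := by
      by_contra hne
      exact hcon (p : ℕ) ⟨Nat.prime_of_mem_primeFactors p.2⟩ P (hn' P) hne f hfs
    have h1 : f x ∈ ((⊤ : Subgroup N).lowerCentralSeries c).map f := Subgroup.mem_map_of_mem f hx
    rw [Subgroup.map_lowerCentralSeries, Subgroup.map_top_of_surjective f hfs, hbot,
      Subgroup.mem_bot] at h1
    exact h1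
  rw [Subgroup.mem_bot]
  have := congrArg e hone
  rwa [e.apply_symm_apply, map_one] at this

theorem lcs_of_comm {P : Type u} [Group P] (h : ∀ x y : P, x * y = y * x) {c : ℕ} (hc : 1 ≤ c) :
    (⊤ : Subgroup P).lowerCentralSeries c = ⊥ := by
  rw [eq_bot_iff]
  refine (Subgroup.lowerCentralSeries_antitone _ hc).trans ?_
  rw [Subgroup.top_lowerCentralSeries_one, commutator_def, Subgroup.commutator_le]
  intro x _ y _
  rw [Subgroup.mem_bot, commutatorElement_eq_one_iff_mul_comm]
  exact h x y

theorem stN2 : StN2.{u} := by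
  intro G _ _ N _ c hc hN hna
  have hna' : (⊤ : Subgroup N).lowerCentralSeries c ≠ ⊥ := by
    intro h
    apply hna
    rw [← Subgroup.top_subtype_lowerCentralSeries, h, Subgroup.map_bot]
  obtain ⟨p, hp, P0, hP0, hP0c, φ, hφ⟩ := exists_sylow_class N hN c hna'
  have hP0na : ¬ ∀ x y : P0, x * y = y * x := fun h => hP0c (lcs_of_comm h hc)
  obtain ⟨a, ha⟩ := IsPGroup.iff_card.mp P0.isPGroup'
  -- `a ≥ 2`
  have ha2 : 2 ≤ a := by
    by_contra hlt
    apply hP0na
    have : a = 0 ∨ a = 1 := by omega
    rcases this with h | h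
    · subst h
      rw [pow_zero] at ha
      have hs : Subsingleton P0 := (Nat.card_eq_one_iff_unique.mp ha).1
      intro x y
      exact Subsingleton.elim _ _
    · subst h
      rw [pow_one] at ha
      have : IsCyclic P0 := isCyclic_of_prime_card ha
      intro x y
      exact IsCyclic.commGroup.mul_comm x y
  set R0 : Subgroup N := φ.ker with hR0
  have hcard : Nat.card (P0 : Subgroup N) * Nat.card R0 = Nat.card N := by
    have h1 := Subgroup.card_mul_index φ.ker
    have h2 : φ.ker.index = Nat.card (P0 : Subgroup N) := by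
      rw [Subgroup.index_ker, MonoidHom.range_eq_top.mpr hφ, Subgroup.card_top]
    rw [h2] at h1
    rw [mul_comm]
    exact h1
  have hindex : (P0 : Subgroup N).index = Nat.card R0 := by
    have h1 := Subgroup.card_mul_index (P0 : Subgroup N)
    have hpos : 0 < Nat.card (P0 : Subgroup N) := Nat.card_pos
    exact Nat.eq_of_mul_eq_mul_left hpos (h1.trans hcard.symm)
  have hcop : (Nat.card R0).Coprime p := by
    have h := Sylow.not_dvd_index P0
    rw [hindex] at h
    exact ((Nat.Prime.coprime_iff_not_dvd hp.out).mpr h).symm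
  have hmemR : ∀ x : N, x ∈ R0 ↔ (orderOf x).Coprime p := by
    intro x
    constructor
    · intro hx
      have hdvd : orderOf x ∣ Nat.card R0 := by
        have := orderOf_dvd_natCard (⟨x, hx⟩ : R0)
        rwa [← Subgroup.orderOf_coe] at this
      exact Nat.Coprime.coprime_dvd_left hdvd hcop
    · intro hx
      have h1 : orderOf (φ x) ∣ orderOf x := orderOf_map_dvd φ x
      have h2 : orderOf (φ x) ∣ p ^ a := by
        have := orderOf_dvd_natCard (φ x)
        rwa [ha] at this
      have h3 : orderOf (φ x) = 1 := by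
        have h4 : (orderOf x).Coprime (p ^ a) := Nat.Coprime.pow_right a hx
        exact Nat.eq_one_of_dvd_coprimes h4 h1 h2
      rw [hR0, MonoidHom.mem_ker]
      exact orderOf_eq_one_iff.mp h3
  have hR0char : R0.Characteristic := by
    rw [Subgroup.characteristic_iff_le_comap]
    intro ψ x hx
    rw [Subgroup.mem_comap]
    rw [hmemR] at hx ⊢
    rwa [MulEquiv.coe_toMonoidHom, MulEquiv.orderOf_eq]
  have hP0char : (P0 : Subgroup N).Characteristic := Sylow.characteristic_of_normal P0 hP0
  have hcompl : Subgroup.IsComplement' (P0 : Subgroup N) R0 := by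
    apply Subgroup.isComplement'_of_coprime hcard
    rw [ha]
    exact Nat.Coprime.pow_left a hcop.symm
  refine ⟨p, a, (P0 : Subgroup N).map N.subtype, R0.map N.subtype, hp.out, inferInstance,
    inferInstance, ?_, ?_, ha2, ?_, ?_, ?_⟩
  · rw [← Subgroup.map_sup, hcompl.sup_eq_top, ← MonoidHom.range_eq_map, Subgroup.range_subtype]
  · rw [← Subgroup.map_inf _ _ _ N.subtype_injective, hcompl.disjoint.eq_bot, Subgroup.map_bot]
  · rw [Subgroup.card_map_of_injective N.subtype_injective]
    exact ha
  · rw [Subgroup.card_map_of_injective N.subtype_injective]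
    exact hcop
  · rw [← Subgroup.map_lowerCentralSeries, Ne,
      Subgroup.map_eq_bot_iff_of_injective _ N.subtype_injective,
      ← Subgroup.top_subtype_lowerCentralSeries,
      Subgroup.map_eq_bot_iff_of_injective _ (P0 : Subgroup N).subtype_injective]
    exact hP0c

theorem stT : StT.{u} := by
  intro G _ N P R _ _ c hPR hbot hyp S hS hSN ⟨q, hq, hSq⟩
  set T : Subgroup G := S.comap (QuotientGroup.mk' P) ⊓ R with hT
  have hTn : T.Normal := by
    have : (S.comap (QuotientGroup.mk' P)).Normal := hS.comap _
    exact Subgroup.normal_inf_normal _ _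
  have hRN : R ≤ N := by rw [← hPR]; exact le_sup_right
  have hTN : T ≤ N := inf_le_right.trans hRN
  have hmap : T.map (QuotientGroup.mk' P) = S := by
    apply le_antisymm
    · exact (Subgroup.map_mono inf_le_left).trans (Subgroup.map_comap_le _ _)
    · intro s hs
      obtain ⟨n, hn, hns⟩ := hSN hs
      rw [← hPR] at hn
      obtain ⟨x, hx, r, hr, rfl⟩ := Subgroup.mem_sup_of_normal_left.1 hn
      have h1 : QuotientGroup.mk' P r = s := by
        rw [← hns, map_mul]
        have : QuotientGroup.mk' P x = 1 := (QuotientGroup.eq_one_iff x).2 hx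
        rw [this, one_mul]
      refine ⟨r, ⟨?_, hr⟩, h1⟩
      show QuotientGroup.mk' P r ∈ S
      rw [h1]
      exact hs
  have hTq : IsPGroup q T := by
    let f : T →* S := ((QuotientGroup.mk' P).comp T.subtype).codRestrict S (fun t => t.2.1)
    refine hSq.of_injective f ?_
    rw [injective_iff_map_eq_one]
    intro t ht
    have h1 : QuotientGroup.mk' P t.1 = 1 := congrArg Subtype.val ht
    have h2 : t.1 ∈ P := by
      rwa [QuotientGroup.mk'_apply, QuotientGroup.eq_one_iff] at h1
    have h3 : t.1 ∈ P ⊓ R := ⟨h2, t.2.2⟩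
    rw [hbot, Subgroup.mem_bot] at h3
    exact Subtype.ext h3
  rcases hyp T hTn hTN ⟨q, hq, hTq⟩ with h | h
  · left
    rw [← hmap, ← Subgroup.map_lowerCentralSeries, h, Subgroup.map_bot]
  · right
    rw [← hmap]
    exact stSE1 G P T h

end Pool.Agent.Helper11.KG
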